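import Mathlib
import Pool.Agent.Lib.MP_dd8e80_al.Semigroup

namespace Pool.Agent.Results.MP_dd8e80_al.CancellativeDCF

open Pool.Agent.Lib.MP_dd8e80_al

universe u

theorem result {S : Type u} [Semigroup S] [IsCancelMul S] (A : Finset S)
    (_hA : Subsemigroup.closure (A : Set S) = ⊤) (h : (wordProblem A).IsContextFree) :
    IsDCF (wordProblem A) :=
  dcf_semigroup A h

end Pool.Agent.Results.MP_dd8e80_al.CancellativeDCF
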